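import Pool.Agent.N754.GF.Stm
import Pool.Agent.N130.LG.CO

/-!
Coprime polynomials stay coprime if some of the variables are replaced by algebraically independent
elements (project GF, helper754).
-/

set_option autoImplicit false

open MvPolynomial

namespace Pool.Agent.N284.GF

/-- a Bezout identity with denominators -/
theorem bez {A : Type} [CommRing A] [IsDomain A] [UniqueFactorizationMonoid A]
    (p q : Polynomial A) (hp : p ≠ 0) (hpq : ∀ d, d ∣ p → d ∣ q → IsUnit d) :
    ∃ (a b : Polynomial A) (c : A), c ≠ 0 ∧ a * p + b * q = Polynomial.C c := by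
  obtain ⟨a, b, hab⟩ := Pool.Agent.N130.LG.isCoprime_map p q hp hpq
  have hinj : Function.Injective (algebraMap A (FractionRing A)) := IsFractionRing.injective _ _
  obtain ⟨u, hu, hua⟩ := IsLocalization.integerNormalization_spec (nonZeroDivisors A) a
  obtain ⟨v, hv, hvb⟩ := IsLocalization.integerNormalization_spec (nonZeroDivisors A) b
  refine ⟨Polynomial.C v * IsLocalization.integerNormalization (nonZeroDivisors A) a,
    Polynomial.C u * IsLocalization.integerNormalization (nonZeroDivisors A) b, u * v,
    mul_ne_zero (nonZeroDivisors.ne_zero hu) (nonZeroDivisors.ne_zero hv), ?_⟩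
  apply Polynomial.map_injective _ hinj
  rw [Polynomial.map_add, Polynomial.map_mul, Polynomial.map_mul, Polynomial.map_mul,
    Polynomial.map_mul, hua, hvb, Polynomial.map_C, Polynomial.map_C, Polynomial.map_C, map_mul,
    Algebra.smul_def, Algebra.smul_def, Polynomial.algebraMap_apply, Polynomial.algebraMap_apply]
  have h1 : Polynomial.C (algebraMap A (FractionRing A) v) *
      (Polynomial.C (algebraMap A (FractionRing A) u) * a) *
        Polynomial.map (algebraMap A (FractionRing A)) p +
      Polynomial.C (algebraMap A (FractionRing A) u) *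
        (Polynomial.C (algebraMap A (FractionRing A) v) * b) *
          Polynomial.map (algebraMap A (FractionRing A)) q =
      Polynomial.C (algebraMap A (FractionRing A) u) *
        Polynomial.C (algebraMap A (FractionRing A) v) *
        (a * Polynomial.map (algebraMap A (FractionRing A)) p +
          b * Polynomial.map (algebraMap A (FractionRing A)) q) := by ring
  refine h1.trans ?_
  rw [hab, mul_one, ← Polynomial.C_mul]

/-- elimination of one variable -/
theorem elim {σ k : Type} [Field k] [DecidableEq σ] (F G : MvPolynomial σ k) (hF : F ≠ 0)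
    (hFG : IsRelPrime F G) (i : σ) : ∃ (α β : MvPolynomial σ k)
      (c : MvPolynomial {j : σ // j ≠ i} k), rename Subtype.val c ≠ (0 : MvPolynomial σ k) ∧
        α * F + β * G = rename Subtype.val c := by
  set e : MvPolynomial σ k ≃ₐ[k] Polynomial (MvPolynomial {j : σ // j ≠ i} k) :=
    (renameEquiv k (Equiv.optionSubtypeNe i).symm).trans (optionEquivLeft k {j : σ // j ≠ i})
    with he
  have hC : ∀ c : MvPolynomial {j : σ // j ≠ i} k, e (rename Subtype.val c) = Polynomial.C c := by
    intro c
    induction c using MvPolynomial.induction_on with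
    | C a => simp [he]
    | add p q hp hq => rw [map_add, map_add, hp, hq, Polynomial.C_add]
    | mul_X p j hp =>
      rw [map_mul, map_mul, hp, Polynomial.C_mul, rename_X]
      congr 1
      simp [he, Equiv.optionSubtypeNe_symm_of_ne j.2]
  obtain ⟨a, b, c, hc, h⟩ := bez (e F) (e G) (fun h => hF (e.injective (by rw [h, map_zero])))
    (by
      intro d hd1 hd2
      have h1 : e.symm d ∣ F := by
        have := map_dvd e.symm hd1
        rwa [AlgEquiv.symm_apply_apply] at this
      have h2 : e.symm d ∣ G := by
        have := map_dvd e.symm hd2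
        rwa [AlgEquiv.symm_apply_apply] at this
      have h3 := (hFG h1 h2).map e
      rwa [AlgEquiv.apply_symm_apply] at h3)
  refine ⟨e.symm a, e.symm b, c, ?_, ?_⟩
  · intro h0
    exact hc (rename_injective _ Subtype.val_injective (by rw [h0, map_zero]))
  · apply e.injective
    rw [map_add, map_mul, map_mul, AlgEquiv.apply_symm_apply, AlgEquiv.apply_symm_apply, h, hC]

section

variable {k κ : Type} [Field k] [Field κ] [Algebra k κ] {a r : ℕ} {s : Fin a → κ}

/-- the map is injective -/
theorem inj (hs : AlgebraicIndependent k s) : Function.Injective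
    (aeval (Sum.elim (fun i => C (s i)) X : Fin a ⊕ Fin r → MvPolynomial (Fin r) κ) :
      MvPolynomial (Fin a ⊕ Fin r) k →ₐ[k] MvPolynomial (Fin r) κ) := by
  have hs' : Function.Injective (aeval s : MvPolynomial (Fin a) k →ₐ[k] κ) := hs
  have h1 : Function.Injective (MvPolynomial.map (σ := Fin r)
      ((aeval s : MvPolynomial (Fin a) k →ₐ[k] κ) : MvPolynomial (Fin a) k →+* κ)) :=
    MvPolynomial.map_injective _ hs'
  have key : ∀ P : MvPolynomial (Fin a ⊕ Fin r) k,
      aeval (Sum.elim (fun i => C (s i)) X : Fin a ⊕ Fin r → MvPolynomial (Fin r) κ) P =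
      MvPolynomial.map ((aeval s : MvPolynomial (Fin a) k →ₐ[k] κ) : MvPolynomial (Fin a) k →+* κ)
        (sumAlgEquiv k (Fin r) (Fin a) (rename Sum.swap P)) := by
    intro P
    induction P using MvPolynomial.induction_on with
    | C c =>
      rw [rename_C, sumAlgEquiv_C_inl, map_C, algHom_C]
      simp
    | add p q hp hq => rw [map_add, map_add, map_add, map_add, hp, hq]
    | mul_X p j hp =>
      rw [map_mul, map_mul, map_mul, map_mul, hp, aeval_X, rename_X]
      congr 1
      rcases j with j | j
      · simp
      · simp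
  intro P Q hPQ
  rw [key, key] at hPQ
  have h2 := h1 hPQ
  have h3 := (sumAlgEquiv k (Fin r) (Fin a)).injective h2
  exact rename_injective _ (Equiv.sumComm (Fin a) (Fin r)).injective h3

/-- the image of a polynomial without one variable -/
theorem sup (s : Fin a → κ) (j : Fin r)
    (c : MvPolynomial {i : Fin a ⊕ Fin r // i ≠ Sum.inr j} k) :
    aeval (Sum.elim (fun i => C (s i)) X : Fin a ⊕ Fin r → MvPolynomial (Fin r) κ)
      (rename Subtype.val c) ∈ supported κ ({j}ᶜ : Set (Fin r)) := by
  induction c using MvPolynomial.induction_on with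
  | C c =>
    rw [rename_C, algHom_C, MvPolynomial.algebraMap_apply]
    exact (supported κ ({j}ᶜ : Set (Fin r))).algebraMap_mem _
  | add p q hp hq =>
    rw [map_add, map_add]
    exact Subalgebra.add_mem _ hp hq
  | mul_X p i hp =>
    rw [map_mul, map_mul, rename_X, aeval_X]
    refine Subalgebra.mul_mem _ hp ?_
    obtain ⟨i, hi⟩ := i
    rcases i with i | i
    · exact (supported κ ({j}ᶜ : Set (Fin r))).algebraMap_mem _
    · refine (X_mem_supported).2 ?_
      intro h
      exact hi (congrArg Sum.inr h)

theorem deg_zero {p : MvPolynomial (Fin r) κ} {j : Fin r} :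
    degreeOf j p = 0 ↔ j ∉ p.vars := by
  classical
  rw [degreeOf_def, Multiset.count_eq_zero, vars_def, Multiset.mem_toFinset]

end

theorem ext : Pool.Agent.N754.GF.S_EXT := by
  intro k κ _ _ _ a r s hs F G hF hG hFG
  classical
  set Φ : MvPolynomial (Fin a ⊕ Fin r) k →ₐ[k] MvPolynomial (Fin r) κ :=
    aeval (Sum.elim (fun i => C (s i)) X : Fin a ⊕ Fin r → MvPolynomial (Fin r) κ) with hΦ
  have hinj : Function.Injective Φ := inj hs
  have hne : ∀ P, P ≠ 0 → Φ P ≠ 0 := fun P hP h => hP (hinj (by rw [h, map_zero]))
  intro d hd1 hd2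
  have hd0 : d ≠ 0 := by
    rintro rfl
    exact hne F hF (zero_dvd_iff.1 hd1)
  have hdeg : ∀ j : Fin r, j ∉ d.vars := by
    intro j
    obtain ⟨α, β, c, hc, h⟩ := elim F G hF hFG (Sum.inr j)
    have h1 : d ∣ Φ (rename Subtype.val c) := by
      rw [← h, map_add, map_mul, map_mul]
      exact dvd_add (hd1.mul_left _) (hd2.mul_left _)
    obtain ⟨t, ht⟩ := h1
    have h2 := hne _ hc
    have ht0 : t ≠ 0 := by
      rintro rfl
      rw [mul_zero] at ht
      exact h2 ht
    have h3 : degreeOf j (Φ (rename Subtype.val c)) = 0 := by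
      rw [deg_zero]
      intro h4
      have h5 := mem_supported.1 (sup (k := k) s j c)
      exact h5 (Finset.mem_coe.2 h4) rfl
    rw [ht, degreeOf_mul_eq hd0 ht0] at h3
    exact deg_zero.1 (by omega)
  have hv : d.vars = ∅ := Finset.eq_empty_of_forall_notMem hdeg
  rw [vars_eq_empty_iff_eq_C] at hv
  rw [hv] at hd0 ⊢
  have hu : IsUnit (d.coeff 0) := isUnit_iff_ne_zero.2 fun h => hd0 (by rw [h, map_zero])
  exact hu.map C

end Pool.Agent.N284.GF
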